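import Mathlib
import Pool.Agent.Q64.L.Stmt

/-!
# Motivic cohomology in degrees at most zero over finite fields: definitions
-/

set_option autoImplicit false

namespace Pool.Agent.Q306.FG

open Polynomial Pool.Agent.Y156.L Pool.Agent.Q64.L

/-- The motivic cohomology with integral coefficients of a scheme `X`. The groups
`H^i(X, ℚ(m)) = gr i m` are given, as subspaces of a rational vector space. -/
structure MotivicData {V : Type} [AddCommGroup V] [Module ℚ V] (gr : ℤ → ℤ → Submodule ℚ V) where
  /-- the group `H^i(X, ℤ(m))` -/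
  H : ℤ → ℤ → Type
  [groupH : ∀ i m, AddCommGroup (H i m)]
  /-- the map `H^i(X, ℤ(m)) → H^i(X, ℚ(m))` -/
  rat : ∀ i m, H i m →+ gr i m

attribute [instance] MotivicData.groupH

section

variable {V : Type} [AddCommGroup V] [Module ℚ V] {gr : ℤ → ℤ → Submodule ℚ V}

/-- Known properties: `H^i(X, ℚ(m))` is the tensor product of `H^i(X, ℤ(m))` with `ℚ`; the groups
`H^i(X, ℤ(m))` with `i ≤ 0`, `m ≥ 1` are torsion-free, as the groups with finite coefficients vanish in
negative degrees (Beilinson-Lichtenbaum, a theorem); the groups of weight zero vanish in negative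
degrees, and the groups of negative weight vanish. -/
structure IsMotivic (G : MotivicData gr) : Prop where
  multiple : ∀ (i m : ℤ) (w : gr i m), ∃ N : ℕ, 0 < N ∧ ∃ x, G.rat i m x = N • w
  injective : ∀ i m : ℤ, i ≤ 0 → 1 ≤ m → Function.Injective (G.rat i m)
  weight_zero : ∀ i : ℤ, i < 0 → gr i 0 = ⊥
  weight_neg : ∀ i m : ℤ, m < 0 → gr i m = ⊥

/-- The groups `H^i(X, ℤ(m))` vanish for all `i ≤ a`. -/
def VanishUpTo (G : MotivicData gr) (a m : ℤ) : Prop := ∀ i ≤ a, ∀ x : G.H i m, x = 0

end

/-- `BSReduces P q F`: let `A` be an abelian variety as in `IsAbelian` and `Z` a smooth projective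
variety, over the field with `q ^ s` elements, whose Frobenius endomorphism satisfies polynomials with
the property `P`. For all `m ≥ 1` and `a ≤ 0` the groups `H^i(A × Z, ℤ(m))`, `i ≤ a`, vanish if and only
if for all `k ≤ dim A` with `k < m` the groups `H^i(Z, ℤ(m - k))`, `i ≤ a - 2 k`, vanish. -/
def BSReduces (P : ℚ[X] → Prop) (q : ℕ) {I : Type} (F : I → ℤ[X]) : Prop :=
  ∀ (K : Type) [Field K] [CharZero K] (A : AbelianData K) (s : ℕ), IsAbelian A q s F →
    ∀ T : RelData A, IsTheory P (q ^ s) T → T.IsPure (q ^ s) →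
      ∀ (G : MotivicData T.grN) (G' : MotivicData T.grM), IsMotivic G → IsMotivic G' →
        ∀ m a : ℤ, 1 ≤ m → a ≤ 0 →
          (VanishUpTo G' a m ↔
            ∀ k : ℕ, k ≤ A.dim → (k : ℤ) < m → VanishUpTo G (a - 2 * k) (m - k))

end Pool.Agent.Q306.FG
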