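import Mathlib
import Pool.Agent.Q64.L.Stmt

/-!
# Finite generation of étale motivic cohomology over finite fields: definitions
-/

set_option autoImplicit false

namespace Pool.Agent.Q306.FG

open Polynomial Pool.Agent.Y156.L Pool.Agent.Q64.L

/-- The étale motivic cohomology of a scheme `X`. The motivic cohomology groups
`H^i(X, ℚ(m)) = gr i m` are given, as subspaces of a rational vector space. -/
structure EtaleData {V : Type} [AddCommGroup V] [Module ℚ V] (gr : ℤ → ℤ → Submodule ℚ V) where
  /-- the group `H^i(X_et, ℤ(m))` -/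
  H : ℤ → ℤ → Type
  [groupH : ∀ i m, AddCommGroup (H i m)]
  /-- the group `H^i(X_et, ℚ/ℤ(m))` -/
  HT : ℤ → ℤ → Type
  [groupHT : ∀ i m, AddCommGroup (HT i m)]
  /-- the map `H^i(X_et, ℤ(m)) → H^i(X, ℚ(m))` -/
  rat : ∀ i m, H i m →+ gr i m
  /-- the map `H^i(X, ℚ(m)) → H^i(X_et, ℚ/ℤ(m))` -/
  red : ∀ i m, gr i m →+ HT i m
  /-- the Bockstein map `H^i(X_et, ℚ/ℤ(m)) → H^(i + 1)(X_et, ℤ(m))` -/
  bock : ∀ i m, HT i m →+ H (i + 1) m

attribute [instance] EtaleData.groupH EtaleData.groupHT

section

variable {V : Type} [AddCommGroup V] [Module ℚ V] {gr : ℤ → ℤ → Submodule ℚ V}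

/-- The long exact sequences of `0 → ℤ(m) → ℚ(m) → ℚ/ℤ(m) → 0`. -/
structure IsEtale (G : EtaleData gr) : Prop where
  exact_rat : ∀ i m, Function.Exact (G.rat i m) (G.red i m)
  exact_red : ∀ i m, Function.Exact (G.red i m) (G.bock i m)
  exact_bock : ∀ i m, Function.Exact (G.bock i m) (G.rat (i + 1) m)

/-- What is known for a smooth projective scheme `X` over a finite field, of pure dimension `d`: the
groups `H^i(X_et, ℚ/ℤ(m))` are finite for `m > d`, and for `m = d`, `i < 2 d` (the theorems of Deligne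
and Gabber, and of Gros and Suwa for the `p`-primary part); the groups `H^(2 m)(X_et, ℤ(m))` are
finitely generated for `m ≥ d` (for `m > d` they are torsion groups, as `CH^m(X) = 0`; for `m = d`
the kernel of the degree is a torsion group, as for zero-cycles). -/
structure IsSmoothProjective (G : EtaleData gr) (d : ℤ) : Prop where
  finite : ∀ i m : ℤ, (d < m ∨ m = d ∧ i < 2 * d) → Finite (G.HT i m)
  top : ∀ m : ℤ, d ≤ m → AddGroup.FG (G.H (2 * m) m)

/-- The groups `H^i(X_et, ℤ(m))` are finitely generated for all `i ≤ 2 m`. -/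
def FGUpTo (G : EtaleData gr) (m : ℤ) : Prop := ∀ i ≤ 2 * m, AddGroup.FG (G.H i m)

/-- The groups `H^i(X_et, ℤ(m))` are finitely generated for all `i` with `a ≤ i ≤ 2 m`. -/
def FGFrom (G : EtaleData gr) (a m : ℤ) : Prop := ∀ i, a ≤ i → i ≤ 2 * m → AddGroup.FG (G.H i m)

end

/-- `TopReduces P q F`: let `A` be an abelian variety as in `IsAbelian` and `Z` a smooth projective
variety of dimension `d`, over the field with `q ^ s` elements, whose Frobenius endomorphism satisfies
polynomials with the property `P`. Then the groups `H^i((A × Z)_et, ℤ(dim A + d))`,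
`i ≤ 2 (dim A + d)`, are finitely generated if and only if the groups `H^i(Z_et, ℤ(d + k))`,
`i ≤ 2 (d + k)`, are finitely generated for `0 ≤ k ≤ dim A`. -/
def TopReduces (P : ℚ[X] → Prop) (q : ℕ) {I : Type} (F : I → ℤ[X]) : Prop :=
  ∀ (K : Type) [Field K] [CharZero K] (A : AbelianData K) (s : ℕ), IsAbelian A q s F →
    ∀ T : RelData A, IsTheory P (q ^ s) T → T.IsPure (q ^ s) →
      ∀ (d : ℤ) (G : EtaleData T.grN) (G' : EtaleData T.grM), IsEtale G → IsEtale G' →
        IsSmoothProjective G d → IsSmoothProjective G' (A.dim + d) →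
          (FGUpTo G' (A.dim + d) ↔ ∀ k : ℕ, k ≤ A.dim → FGUpTo G (d + k))

/-- `TopFromReduces P q F`: let `A` be an abelian variety as in `IsAbelian` and `Z` a smooth projective
variety of dimension `d`, over the field with `q ^ s` elements, whose Frobenius endomorphism satisfies
polynomials with the property `P`. Then, for every `a`, the groups `H^i((A × Z)_et, ℤ(dim A + d))`,
`a ≤ i ≤ 2 (dim A + d)`, are finitely generated if and only if for `0 ≤ k ≤ dim A` the groups
`H^i(Z_et, ℤ(d + k))`, `a - 2 (dim A - k) ≤ i ≤ 2 (d + k)`, are finitely generated. -/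
def TopFromReduces (P : ℚ[X] → Prop) (q : ℕ) {I : Type} (F : I → ℤ[X]) : Prop :=
  ∀ (K : Type) [Field K] [CharZero K] (A : AbelianData K) (s : ℕ), IsAbelian A q s F →
    ∀ T : RelData A, IsTheory P (q ^ s) T → T.IsPure (q ^ s) →
      ∀ (d : ℤ) (G : EtaleData T.grN) (G' : EtaleData T.grM), IsEtale G → IsEtale G' →
        IsSmoothProjective G d → IsSmoothProjective G' (A.dim + d) → ∀ a : ℤ,
          (FGFrom G' a (A.dim + d) ↔
            ∀ k : ℕ, k ≤ A.dim → FGFrom G (a - 2 * (A.dim - k)) (d + k))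

end Pool.Agent.Q306.FG
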