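import Mathlib
import Pool.Agent.Q306.FG.Defs

/-!
# Finite generation of the étale cohomology of cycle complexes in negative weights: definitions
-/

set_option autoImplicit false

namespace Pool.Agent.Q306.FG

open Polynomial Pool.Agent.Y156.L Pool.Agent.Q64.L

section

variable {V : Type} [AddCommGroup V] [Module ℚ V] {gr : ℤ → ℤ → Submodule ℚ V}

/-- The groups `H^i(X_et, ℤ^c(n)) = H^(2 d + i)(X_et, ℤ(d - n))` are finitely generated for all
`i ≤ - 2 n + 1`, where `d` is the dimension of `X`. -/
def CycleFG (G : EtaleData gr) (d n : ℤ) : Prop :=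
  ∀ i ≤ -2 * n + 1, AddGroup.FG (G.H (2 * d + i) (d - n))

/-- What is known for a separated scheme `X` of finite type over a finite field: the groups
`H^i(X_et, ℚ/ℤ^c(n))`, which have the bidegree `(i + a, b - n)`, are finite for all `n < 0`. -/
def FiniteTorsion (G : EtaleData gr) (a b : ℤ) : Prop :=
  ∀ i n : ℤ, n < 0 → Finite (G.HT (i + a) (b - n))

/-- The groups `H^i(X_et, ℤ^c(n))`, which have the bidegree `(i + a, b - n)`, are finitely generated
for all `i`. -/
def HomologyFG (G : EtaleData gr) (a b n : ℤ) : Prop :=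
  ∀ i : ℤ, AddGroup.FG (G.H (i + a) (b - n))

end

/-- `CycleReduces P q F`: let `A` be an abelian variety as in `IsAbelian` and `Z` a smooth projective
variety of dimension `d`, over the field with `q ^ s` elements, whose Frobenius endomorphism satisfies
polynomials with the property `P`. For all `n < 0` the groups `H^i((A × Z)_et, ℤ^c(n))` are finitely
generated for all `i ≤ - 2 n + 1` if and only if for all `n'` with `n - dim A ≤ n' ≤ n` the groups
`H^i(Z_et, ℤ^c(n'))` are finitely generated for all `i ≤ - 2 n' + 1`. -/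
def CycleReduces (P : ℚ[X] → Prop) (q : ℕ) {I : Type} (F : I → ℤ[X]) : Prop :=
  ∀ (K : Type) [Field K] [CharZero K] (A : AbelianData K) (s : ℕ), IsAbelian A q s F →
    ∀ T : RelData A, IsTheory P (q ^ s) T → T.IsPure (q ^ s) →
      ∀ (d : ℤ) (G : EtaleData T.grN) (G' : EtaleData T.grM), IsEtale G → IsEtale G' →
        IsSmoothProjective G d → IsSmoothProjective G' (A.dim + d) → ∀ n < 0,
          (CycleFG G' (A.dim + d) n ↔ ∀ n' : ℤ, n - A.dim ≤ n' → n' ≤ n → CycleFG G d n')

/-- `HomologyReduces P q F`: let `A` be an abelian variety as in `IsAbelian` and `Z` a separated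
scheme of finite type over the field with `q ^ s` elements, whose Frobenius endomorphism satisfies
polynomials with the property `P`. For all `n < 0` the groups `H^i((A × Z)_et, ℤ^c(n))` are finitely
generated for all `i` if and only if the groups `H^i(Z_et, ℤ^c(n'))` are finitely generated for all
`i` and all `n'` with `n - dim A ≤ n' ≤ n`. (The bidegree is `(i, - n)` for `Z` and
`(i + 2 dim A, dim A - n)` for `A × Z`.) -/
def HomologyReduces (P : ℚ[X] → Prop) (q : ℕ) {I : Type} (F : I → ℤ[X]) : Prop :=
  ∀ (K : Type) [Field K] [CharZero K] (A : AbelianData K) (s : ℕ), IsAbelian A q s F →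
    ∀ T : RelData A, IsTheory P (q ^ s) T → T.IsPure (q ^ s) →
      ∀ (G : EtaleData T.grN) (G' : EtaleData T.grM), IsEtale G → IsEtale G' →
        FiniteTorsion G 0 0 → FiniteTorsion G' (2 * A.dim) A.dim → ∀ n < 0,
          (HomologyFG G' (2 * A.dim) A.dim n ↔
            ∀ n' : ℤ, n - A.dim ≤ n' → n' ≤ n → HomologyFG G 0 0 n')

end Pool.Agent.Q306.FG
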