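import Mathlib
import Pool.Agent.Q306.FG.NegDefs
import Pool.Agent.Q64.L.Iff

/-!
# Finite generation of étale motivic cohomology over finite fields: proofs
-/

set_option autoImplicit false
set_option linter.unusedSectionVars false

namespace Pool.Agent.Q306.FG

open Module Polynomial Pool.Agent.Y156.L Pool.Agent.Q64.L

section groups

/-- A finitely generated group which is a rational vector space is zero. -/
theorem subsingleton_of_fg {W : Type} [AddCommGroup W] [Module ℚ W] (h : AddGroup.FG W) :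
    ∀ w : W, w = 0 := by
  have h1 : Module.Finite ℤ W := Module.Finite.iff_addGroup_fg.2 h
  have h2 : (⊤ : Submodule ℤ W) ≤ Ideal.span {(2 : ℤ)} • (⊤ : Submodule ℤ W) := by
    intro w _
    have h3 : w = (2 : ℤ) • ((1 / 2 : ℚ) • w) := by
      rw [← Int.cast_smul_eq_zsmul ℚ, smul_smul]
      norm_num
    rw [h3]
    exact Submodule.smul_mem_smul (Ideal.mem_span_singleton_self 2) trivial
  obtain ⟨r, hr, h3⟩ := Submodule.exists_sub_one_mem_and_smul_eq_zero_of_fg_of_le_smul _ _
    h1.fg_top h2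
  intro w
  have h4 := h3 w trivial
  rw [Ideal.mem_span_singleton] at hr
  have h5 : (r : ℚ) ≠ 0 := by
    intro h6
    have : r = 0 := by exact_mod_cast h6
    rw [this] at hr
    omega
  rw [← Int.cast_smul_eq_zsmul ℚ] at h4
  exact (smul_eq_zero.1 h4).resolve_left h5

variable {V : Type} [AddCommGroup V] [Module ℚ V] {gr : ℤ → ℤ → Submodule ℚ V}
  {G : EtaleData gr}

theorem fg_iff_succ (hG : IsEtale G) {i m : ℤ} (h0 : Finite (G.HT i m))
    (h1 : Finite (G.HT (i + 1) m)) : AddGroup.FG (G.H (i + 1) m) ↔ gr (i + 1) m = ⊥ := by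
  constructor
  · intro h
    have h2 : ∀ w : gr (i + 1) m, G.red (i + 1) m w = 0 := by
      intro w
      have hc : Nat.card (G.HT (i + 1) m) ≠ 0 := Nat.card_pos.ne'
      have h3 : w = Nat.card (G.HT (i + 1) m) • (((Nat.card (G.HT (i + 1) m) : ℚ)⁻¹) • w) := by
        rw [← Nat.cast_smul_eq_nsmul ℚ, smul_smul, mul_inv_cancel₀ (by exact_mod_cast hc),
          one_smul]
      rw [h3, map_nsmul]
      exact card_nsmul_eq_zero'
    have h3 : Function.Surjective (G.rat (i + 1) m) := fun w =>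
      (hG.exact_rat (i + 1) m w).1 (h2 w)
    have h4 : AddGroup.FG (gr (i + 1) m) := AddGroup.fg_of_surjective h3
    have h5 := subsingleton_of_fg h4
    rw [Submodule.eq_bot_iff]
    intro w hw
    exact congrArg Subtype.val (h5 ⟨w, hw⟩)
  · intro h
    have h2 : Function.Surjective (G.bock i m) := by
      intro x
      refine (hG.exact_bock i m x).1 ?_
      exact Subtype.ext ((Submodule.eq_bot_iff _).1 h _ (G.rat (i + 1) m x).2)
    have h3 : Finite (G.H (i + 1) m) := Finite.of_surjective _ h2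
    infer_instance

/-- Finite generation and vanishing of the rational group. -/
theorem fg_iff (hG : IsEtale G) {i m : ℤ} (h0 : Finite (G.HT (i - 1) m))
    (h1 : Finite (G.HT i m)) : AddGroup.FG (G.H i m) ↔ gr i m = ⊥ := by
  obtain ⟨i', rfl⟩ : ∃ i', i = i' + 1 := ⟨i - 1, by ring⟩
  rw [show i' + 1 - 1 = i' by ring] at h0
  exact fg_iff_succ hG h0 h1

/-- In the range of the questions. -/
theorem fg_iff_range (hG : IsEtale G) {d : ℤ} (hS : IsSmoothProjective G d) {i m : ℤ}
    (h : d < m ∨ m = d ∧ i < 2 * d) : AddGroup.FG (G.H i m) ↔ gr i m = ⊥ :=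
  fg_iff hG (hS.finite _ _ (by omega)) (hS.finite _ _ h)

end groups

section rel

/-- The regulator zero. -/
def zeroReg {K : Type} [Field K] {A : AbelianData K} (T : RelData A) : Regulator T T := ⟨0, 0⟩

theorem isRegulator_zero {K : Type} [Field K] {A : AbelianData K} (T : RelData A) :
    IsRegulator (zeroReg T) where
  memN _ := Submodule.zero_mem _
  memM _ := Submodule.zero_mem _
  mul _ _ := (map_zero _).symm
  push _ _ := (map_zero _).symm

theorem injectiveM_zero {K : Type} [Field K] {A : AbelianData K} (T : RelData A) (i j : ℤ) :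
    InjectiveM (zeroReg T) i j ↔ T.grM i j = ⊥ := by
  rw [Submodule.eq_bot_iff]
  exact ⟨fun h x hx => h x hx rfl, fun h x hx _ => h x hx⟩

theorem injectiveN_zero {K : Type} [Field K] {A : AbelianData K} (T : RelData A) (i j : ℤ) :
    InjectiveN (zeroReg T) i j ↔ T.grN i j = ⊥ := by
  rw [Submodule.eq_bot_iff]
  exact ⟨fun h x hx => h x hx rfl, fun h x hx _ => h x hx⟩

variable {P : ℚ[X] → Prop} {q : ℕ} (hq : 1 < q) {I : Type} {F : I → ℤ[X]} (hG : Good P q F)

include hq hG

/-- The groups of `A × Z` and the groups of `Z`. -/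
theorem grM_eq_bot_iff {K : Type} [Field K] [CharZero K] {A : AbelianData K} {s : ℕ}
    (hA : IsAbelian A q s F) {T : RelData A} (hT : IsTheory P (q ^ s) T)
    (hpure : T.IsPure (q ^ s)) (i j : ℤ) :
    T.grM i j = ⊥ ↔ ∀ k : ℕ, k ≤ A.dim → T.grN (i - 2 * k) (j - k) = ⊥ := by
  obtain ⟨J, hJ, c, D, hF, -, h2⟩ := exists_main hq hG hA
  obtain ⟨-, h7⟩ := h2 T hT.rel hT.degree hT.eigenvalues hpure
  have h := h7 T (zeroReg T) (isRegulator_zero T) i j
  simp only [injectiveM_zero, injectiveN_zero] at h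
  exact h

/-- Group by group. -/
theorem fg_times {K : Type} [Field K] [CharZero K] {A : AbelianData K} {s : ℕ}
    (hA : IsAbelian A q s F) {T : RelData A} (hT : IsTheory P (q ^ s) T)
    (hpure : T.IsPure (q ^ s)) {d : ℤ} {G : EtaleData T.grN} {G' : EtaleData T.grM}
    (hE : IsEtale G) (hE' : IsEtale G') (hS : IsSmoothProjective G d)
    (hS' : IsSmoothProjective G' (A.dim + d)) {i m : ℤ}
    (h : A.dim + d < m ∨ m = A.dim + d ∧ i < 2 * (A.dim + d)) :
    AddGroup.FG (G'.H i m) ↔ ∀ k : ℕ, k ≤ A.dim → AddGroup.FG (G.H (i - 2 * k) (m - k)) := by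
  rw [fg_iff_range hE' hS' h, grM_eq_bot_iff hq hG hA hT hpure i m]
  refine forall₂_congr fun k hk => ?_
  exact (fg_iff_range hE hS (by omega)).symm

theorem topFromReduces : TopFromReduces P q F := by
  intro K _ _ A s hA T hT hpure d G G' hE hE' hS hS' a
  constructor
  · intro h k hk i hi1 hi2
    rcases eq_or_lt_of_le hi2 with hi | hi
    · rw [hi]
      exact hS.top _ (by omega)
    · have h1 := h (i + 2 * (A.dim - k)) (by omega) (by omega)
      rw [fg_times hq hG hA hT hpure hE hE' hS hS' (Or.inr ⟨rfl, by omega⟩)] at h1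
      have h2 := h1 (A.dim - k) (Nat.sub_le _ _)
      rw [Nat.cast_sub hk] at h2
      rwa [show i + 2 * ((A.dim : ℤ) - k) - 2 * ((A.dim : ℤ) - k) = i by ring,
        show (A.dim : ℤ) + d - ((A.dim : ℤ) - k) = d + k by ring] at h2
  · intro h i hi1 hi2
    rcases eq_or_lt_of_le hi2 with hi | hi
    · rw [hi]
      exact hS'.top _ le_rfl
    · rw [fg_times hq hG hA hT hpure hE hE' hS hS' (Or.inr ⟨rfl, hi⟩)]
      intro k hk
      have h1 := h (A.dim - k) (Nat.sub_le _ _) (i - 2 * k)
      rw [Nat.cast_sub hk] at h1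
      have h2 := h1 (by omega) (by omega)
      rwa [show d + ((A.dim : ℤ) - k) = A.dim + d - k by ring] at h2

theorem topReduces : TopReduces P q F := by
  intro K _ _ A s hA T hT hpure d G G' hE hE' hS hS'
  have h := topFromReduces hq hG K A s hA T hT hpure d G G' hE hE' hS hS'
  constructor
  · intro h1 k hk i hi
    exact (h (i + 2 * (A.dim - k))).1 (fun j _ hj => h1 j hj) k hk i (by omega) hi
  · intro h1 i hi
    exact (h i).2 (fun k hk j _ hj => h1 k hk j hj) i le_rfl hi

theorem cycleReduces : CycleReduces P q F := by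
  intro K _ _ A s hA T hT hpure d G G' hE hE' hS hS' n hn
  constructor
  · intro h n' h1 h2 i hi
    obtain ⟨k, hk⟩ : ∃ k : ℕ, (k : ℤ) = A.dim - (n - n') := ⟨(A.dim - (n - n')).toNat, by omega⟩
    have h3 := h (i - 2 * (n - n')) (by omega)
    rw [fg_times hq hG hA hT hpure hE hE' hS hS' (Or.inl (by omega))] at h3
    have h4 := h3 k (by omega)
    rwa [hk, show 2 * ((A.dim : ℤ) + d) + (i - 2 * (n - n')) - 2 * ((A.dim : ℤ) - (n - n')) =
      2 * d + i by ring, show (A.dim : ℤ) + d - n - ((A.dim : ℤ) - (n - n')) = d - n' by ring] at h4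
  · intro h i hi
    rw [fg_times hq hG hA hT hpure hE hE' hS hS' (Or.inl (by omega))]
    intro k hk
    have h1 := h (n - (A.dim - k)) (by omega) (by omega) (i + 2 * (A.dim - k)) (by omega)
    rwa [show 2 * d + (i + 2 * ((A.dim : ℤ) - k)) = 2 * ((A.dim : ℤ) + d) + i - 2 * k by ring,
      show d - (n - ((A.dim : ℤ) - k)) = (A.dim : ℤ) + d - n - k by ring] at h1

theorem homologyReduces : HomologyReduces P q F := by
  intro K _ _ A s hA T hT hpure G G' hE hE' hS hS' n hn
  have key : ∀ i : ℤ, AddGroup.FG (G'.H (i + 2 * A.dim) (A.dim - n)) ↔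
      ∀ k : ℕ, k ≤ A.dim → AddGroup.FG (G.H (i + 2 * A.dim - 2 * k) (A.dim - n - k)) := by
    intro i
    have h0 := hS' (i - 1) n hn
    rw [show i - 1 + 2 * (A.dim : ℤ) = i + 2 * A.dim - 1 by ring] at h0
    rw [fg_iff hE' h0 (hS' i n hn), grM_eq_bot_iff hq hG hA hT hpure]
    refine forall₂_congr fun k hk => ?_
    have h1 := hS (i + 2 * A.dim - 2 * k) (n - (A.dim - k)) (by omega)
    have h2 := hS (i + 2 * A.dim - 2 * k - 1) (n - (A.dim - k)) (by omega)
    rw [add_zero, show (0 : ℤ) - (n - (A.dim - k)) = A.dim - n - k by ring] at h1 h2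
    exact (fg_iff hE h2 h1).symm
  constructor
  · intro h n' h1 h2 i
    obtain ⟨k, hk⟩ : ∃ k : ℕ, (k : ℤ) = A.dim - (n - n') := ⟨(A.dim - (n - n')).toNat, by omega⟩
    have h3 := (key (i - 2 * (n - n'))).1 (h _) k (by omega)
    rwa [hk, show i - 2 * (n - n') + 2 * (A.dim : ℤ) - 2 * ((A.dim : ℤ) - (n - n')) = i + 0 by ring,
      show (A.dim : ℤ) - n - ((A.dim : ℤ) - (n - n')) = 0 - n' by ring] at h3
  · intro h i
    rw [key]
    intro k hk
    have h1 := h (n - (A.dim - k)) (by omega) (by omega) (i + 2 * A.dim - 2 * k)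
    rwa [add_zero, show 0 - (n - ((A.dim : ℤ) - k)) = (A.dim : ℤ) - n - k by ring] at h1

end rel

end Pool.Agent.Q306.FG
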