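import Mathlib
import Pool.Agent.Q306.FG.BSDefs
import Pool.Agent.Q306.FG.Thms

/-!
# Motivic cohomology in degrees at most zero over finite fields: proofs
-/

set_option autoImplicit false
set_option linter.unusedSectionVars false

namespace Pool.Agent.Q306.FG

open Module Polynomial Pool.Agent.Y156.L Pool.Agent.Q64.L

theorem zero_iff {V : Type} [AddCommGroup V] [Module ℚ V] {gr : ℤ → ℤ → Submodule ℚ V}
    {G : MotivicData gr} (hG : IsMotivic G) {i m : ℤ} (hi : i ≤ 0) (hm : 1 ≤ m) :
    (∀ x : G.H i m, x = 0) ↔ gr i m = ⊥ := by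
  rw [Submodule.eq_bot_iff]
  constructor
  · intro h w hw
    obtain ⟨N, hN, x, hx⟩ := hG.multiple i m ⟨w, hw⟩
    rw [h x, map_zero] at hx
    have h1 : (N : ℚ) • (⟨w, hw⟩ : gr i m) = 0 := by
      rw [Nat.cast_smul_eq_nsmul]
      exact hx.symm
    have h2 := (smul_eq_zero.1 h1).resolve_left (by exact_mod_cast hN.ne')
    exact congrArg Subtype.val h2
  · intro h x
    refine hG.injective i m hi hm ?_
    rw [map_zero]
    exact Subtype.ext (h _ (G.rat i m x).2)

variable {P : ℚ[X] → Prop} {q : ℕ} (hq : 1 < q) {I : Type} {F : I → ℤ[X]} (hG : Good P q F)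

include hq hG

theorem bsReduces : BSReduces P q F := by
  intro K _ _ A s hA T hT hpure G G' hM hM' m a hm ha
  constructor
  · intro h k hk hkm i hi
    rw [zero_iff hM (by omega) (by omega)]
    have h1 := (zero_iff hM' (i := i + 2 * k) (by omega) hm).1 (h (i + 2 * k) (by omega))
    rw [grM_eq_bot_iff hq hG hA hT hpure] at h1
    have h2 := h1 k hk
    rwa [show i + 2 * (k : ℤ) - 2 * k = i by ring] at h2
  · intro h i hi
    rw [zero_iff hM' (by omega) hm, grM_eq_bot_iff hq hG hA hT hpure]
    intro k hk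
    rcases lt_trichotomy (k : ℤ) m with hkm | hkm | hkm
    · exact (zero_iff hM (by omega) (by omega)).1 (h k hk hkm (i - 2 * k) (by omega))
    · rw [hkm, sub_self]
      exact hM.weight_zero _ (by omega)
    · exact hM.weight_neg _ _ (by omega)

end Pool.Agent.Q306.FG
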