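import Mathlib
import Pool.Agent.Q64.L.Stmt

/-!
# The cohomology of generic points: definitions
-/

set_option autoImplicit false

namespace Pool.Agent.Q306.FG

open Polynomial Pool.Agent.Y156.L Pool.Agent.Q64.L

/-- The cohomology of the generic points of a smooth variety `U` over the field with `Q` elements and
of `A × U`, where `A` is an abelian variety; `R` is the cohomology of `U` and of `A × U`. -/
structure GenericData {K : Type} [Field K] {A : AbelianData K} (R : RelData A) where
  /-- the sum of the groups `H^i(F₀ U, ℚ_ℓ(j))` -/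
  GN : Type
  [groupGN : AddCommGroup GN]
  [moduleGN : Module ℚ GN]
  /-- the sum of the groups `H^i(F₀ (A × U), ℚ_ℓ(j))` -/
  GM : Type
  [groupGM : AddCommGroup GM]
  [moduleGM : Module ℚ GM]
  /-- the group `H^i(F₀ U, ℚ_ℓ(j))` -/
  grN : ℤ → ℤ → Submodule ℚ GN
  /-- the group `H^i(F₀ (A × U), ℚ_ℓ(j))` -/
  grM : ℤ → ℤ → Submodule ℚ GM
  /-- the operation of Frobenius on the cohomology of the generic point of `U` -/
  frobN : Module.End ℚ GN
  /-- the operation of Frobenius on the cohomology of the generic point of `A × U` -/
  frobM : Module.End ℚ GM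
  /-- the restriction to the generic point of `U` -/
  resN : R.N →ₗ[ℚ] GN
  /-- the restriction to the generic point of `A × U` -/
  resM : R.M →ₗ[ℚ] GM
  /-- the inverse image by the projection `A × U → U` -/
  pull : GN →ₗ[ℚ] GM
  /-- the image of the higher Chow group `CH^j(F(U), 2 j - i)` (tensored with `ℚ_ℓ`) of the function
  field of `U` over an algebraic closure of the finite field -/
  cycN : ℤ → ℤ → Submodule ℚ GN
  /-- the image of the higher Chow group `CH^j(F(A × U), 2 j - i)` (tensored with `ℚ_ℓ`) of the
  function field of `A × U` over an algebraic closure of the finite field -/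
  cycM : ℤ → ℤ → Submodule ℚ GM

attribute [instance] GenericData.groupGN GenericData.moduleGN GenericData.groupGM
  GenericData.moduleGM

section

variable {K : Type} [Field K] {A : AbelianData K} {R : RelData A}

/-- The formal properties of the cohomology of generic points: degrees; compatibility of
restrictions, inverse images and Frobenius; a product with a class of positive codimension on `A` has
a support which does not contain the generic point of `A × U`. -/
structure IsRestriction (G : GenericData R) : Prop where
  res_deg : ∀ {i j : ℤ} {n : R.N}, R.DegN i j n → G.resN n ∈ G.grN i j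
  res_degM : ∀ {i j : ℤ} {m : R.M}, R.DegM i j m → G.resM m ∈ G.grM i j
  res_frobN : ∀ n : R.N, G.resN (R.FN n) = G.frobN (G.resN n)
  res_frobM : ∀ m : R.M, G.resM (R.app A.frob (R.FM m)) = G.frobM (G.resM m)
  pull_frob : ∀ g : G.GN, G.pull (G.frobN g) = G.frobM (G.pull g)
  res_one : ∀ n : R.N, G.resM (R.mul 1 n) = G.pull (G.resN n)
  res_support : ∀ {c : ℕ} {x : A.CH} (n : R.N), 0 < c → A.Codim c x → G.resM (R.mul x n) = 0

/-- The specialization at a closed point of `A`: the inverse image on the cohomology of the generic
points is injective, and an element of `H^i(F₀ U, ℚ_ℓ(j))` comes from the higher Chow group of the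
function field if and only if its inverse image does. -/
structure IsSpecialization (G : GenericData R) : Prop where
  injective : ∀ g : G.GN, G.pull g = 0 → g = 0
  cycles : ∀ {i j : ℤ} {g : G.GN}, g ∈ G.grN i j → (G.pull g ∈ G.cycM i j ↔ g ∈ G.cycN i j)

/-- On each group `H^i(A × U, j)` the Frobenius endomorphism of `A × U` satisfies a nonzero
polynomial with rational coefficients (a theorem of Deligne). -/
def FrobeniusAlgebraic (R : RelData A) : Prop :=
  ∀ i j : ℤ, ∃ χ : ℚ[X], χ ≠ 0 ∧ ∀ m, R.DegM i j m → aeval (R.act A.frob * R.frobM) χ m = 0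

/-- The formal properties of the cohomology of generic points. -/
structure IsGeneric (G : GenericData R) : Prop where
  restriction : IsRestriction G
  specialization : IsSpecialization G
  algebraic : FrobeniusAlgebraic R

variable (Q : ℕ) (G : GenericData R)

/-- Every Frobenius invariant class in `H^i(F₀ U, ℚ_ℓ(j))` which extends to `U` comes from the higher
Chow group of the function field. -/
def ExtendedN (i j : ℤ) : Prop :=
  ∀ n, R.DegN i j n → G.frobN (G.resN n) = ((Q : ℚ) ^ j) • G.resN n → G.resN n ∈ G.cycN i j

/-- Every Frobenius invariant class in `H^i(F₀ (A × U), ℚ_ℓ(j))` which extends to `A × U` comes from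
the higher Chow group of the function field. -/
def ExtendedM (i j : ℤ) : Prop :=
  ∀ m, R.DegM i j m → G.frobM (G.resM m) = ((Q : ℚ) ^ j) • G.resM m → G.resM m ∈ G.cycM i j

/-- Question Q1 for (the function field of) `U` and the bidegree `(i, j)`. -/
def QuestionN (i j : ℤ) : Prop :=
  ∀ g ∈ G.grN i j, G.frobN g = ((Q : ℚ) ^ j) • g → g ∈ G.cycN i j

/-- Question Q1 for (the function field of) `A × U` and the bidegree `(i, j)`. -/
def QuestionM (i j : ℤ) : Prop :=
  ∀ g ∈ G.grM i j, G.frobM g = ((Q : ℚ) ^ j) • g → g ∈ G.cycM i j

/-- All Frobenius invariant classes in `H^i(F₀ U, ℚ_ℓ(j))` and in `H^i(F₀ (A × U), ℚ_ℓ(j))` extend to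
`U` and to `A × U`. This is so for `i = 2 j` if `U` is projective. -/
def AllExtend (i j : ℤ) : Prop :=
  (∀ g ∈ G.grN i j, G.frobN g = ((Q : ℚ) ^ j) • g → ∃ n, R.DegN i j n ∧ G.resN n = g) ∧
  (∀ g ∈ G.grM i j, G.frobM g = ((Q : ℚ) ^ j) • g → ∃ m, R.DegM i j m ∧ G.resM m = g)

/-- The inverse image gives a bijection between the Frobenius invariant classes in
`H^i(F₀ U, ℚ_ℓ(j))` which extend to `U` and the Frobenius invariant classes in
`H^i(F₀ (A × U), ℚ_ℓ(j))` which extend to `A × U`. -/
def PullBijective (i j : ℤ) : Prop :=
  ∀ w : G.GM, ((∃ m, R.DegM i j m ∧ G.resM m = w) ∧ G.frobM w = ((Q : ℚ) ^ j) • w) ↔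
    ∃! g : G.GN, ((∃ n, R.DegN i j n ∧ G.resN n = g) ∧ G.frobN g = ((Q : ℚ) ^ j) • g) ∧
      G.pull g = w

end

/-- `GenericReduces P q F`: let `A` be an abelian variety as in `IsAbelian` and `U` a smooth variety
over the field with `q ^ s` elements whose Frobenius endomorphism satisfies on the cohomology
polynomials with the property `P`. For all `i`, `j`: the inverse image gives a bijection of the
Frobenius invariant classes of the generic points of `U` and `A × U` which extend to `U` and
`A × U`; these classes come from the higher Chow groups of the function field for `A × U` if and only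
if they do for `U`; and if all invariant classes extend, then question Q1 for `A × U` and `(i, j)` is
equivalent to question Q1 for `U` and `(i, j)`. -/
def GenericReduces (P : ℚ[X] → Prop) (q : ℕ) {I : Type} (F : I → ℤ[X]) : Prop :=
  ∀ (K : Type) [Field K] [CharZero K] (A : AbelianData K) (s : ℕ), IsAbelian A q s F →
    ∀ R : RelData A, IsTheory P (q ^ s) R → ∀ G : GenericData R, IsGeneric G → ∀ i j : ℤ,
      PullBijective (q ^ s) G i j ∧
      (ExtendedM (q ^ s) G i j ↔ ExtendedN (q ^ s) G i j) ∧
      (AllExtend (q ^ s) G i j → (QuestionM (q ^ s) G i j ↔ QuestionN (q ^ s) G i j))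

end Pool.Agent.Q306.FG
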