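import Mathlib
import Pool.Agent.Q306.FG.GPDefs
import Pool.Agent.Q64.L.Iff

/-!
# The cohomology of generic points: proofs
-/

set_option autoImplicit false
set_option linter.unusedSectionVars false

namespace Pool.Agent.Q306.FG

open Module Polynomial Pool.Agent.Y156.L Pool.Agent.Q64.L

/-- An element killed by a nonzero polynomial in `Φ` is the sum of an element killed by a power of
`Φ - μ` and an element of the form `(Φ - μ) w`, both polynomials in `Φ` applied to it. -/
theorem exists_split {M : Type} [AddCommGroup M] [Module ℚ M] (Φ : Module.End ℚ M) (μ : ℚ)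
    {χ : ℚ[X]} (hχ : χ ≠ 0) {m : M} (hm : aeval Φ χ m = 0) :
    ∃ (u v : ℚ[X]) (N : ℕ), u + v * (X - C μ) = 1 ∧
      ((Φ - algebraMap ℚ (Module.End ℚ M) μ) ^ N) (aeval Φ u m) = 0 := by
  obtain ⟨χ', h1, h2⟩ := exists_eq_pow_rootMultiplicity_mul_and_not_dvd χ hχ μ
  set N := χ.rootMultiplicity μ with hN
  have hcop : IsCoprime (X - C μ) χ' := by
    rw [Irreducible.coprime_iff_not_dvd (irreducible_X_sub_C μ)]
    exact h2
  obtain ⟨a, b, hab⟩ := hcop
  refine ⟨b * χ', a, N, ?_, ?_⟩
  · rw [← hab]; ring
  · have h3 : (Φ - algebraMap ℚ (Module.End ℚ M) μ) ^ N = aeval Φ ((X - C μ) ^ N) := by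
      rw [map_pow, map_sub, aeval_X, aeval_C]
    rw [h3, ← Module.End.mul_apply, ← map_mul]
    have h4 : (X - C μ) ^ N * (b * χ') = b * χ := by
      conv_rhs => rw [h1]
      ring
    rw [h4, map_mul, Module.End.mul_apply, hm, map_zero]

section

variable {P : ℚ[X] → Prop} {q : ℕ} (hq : 1 < q) {I : Type} {F : I → ℤ[X]} (hG : Good P q F)

include hq hG

theorem pull_of_extended {K : Type} [Field K] [CharZero K] {A : AbelianData K} {s : ℕ}
    (hA : IsAbelian A q s F) {R : RelData A} (hR : IsTheory P (q ^ s) R) {G : GenericData R}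
    (hGen : IsGeneric G) {i j : ℤ} {m : R.M} (hm : R.DegM i j m)
    (hinv : G.frobM (G.resM m) = (((q ^ s : ℕ) : ℚ) ^ j) • G.resM m) :
    ∃ n, R.DegN i j n ∧ G.frobN (G.resN n) = (((q ^ s : ℕ) : ℚ) ^ j) • G.resN n ∧
      G.pull (G.resN n) = G.resM m := by
  obtain ⟨J, hJ, c, D, E', hfam, hdual, hQ, hmain⟩ := exists_classes hq hG hA
  set μ : ℚ := ((q ^ s : ℕ) : ℚ) ^ j with hμ
  set Φ : Module.End ℚ R.M := R.act A.frob * R.frobM with hΦ
  have hresΦ : ∀ x : R.M, G.resM (Φ x) = G.frobM (G.resM x) := hGen.restriction.res_frobM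
  have hres : ∀ (p : ℚ[X]) (x : R.M), G.resM (aeval Φ p x) = aeval G.frobM p (G.resM x) := by
    intro p
    induction p using Polynomial.induction_on' with
    | add p r hp hr => intro x; rw [map_add, map_add, LinearMap.add_apply, map_add, hp, hr,
        LinearMap.add_apply]
    | monomial k a =>
      intro x
      rw [aeval_monomial, aeval_monomial, Module.End.mul_apply, Module.End.mul_apply,
        Module.algebraMap_end_apply, Module.algebraMap_end_apply, map_smul]
      congr 1
      induction k with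
      | zero => simp
      | succ k ih =>
        have h5 : (Φ ^ (k + 1)) x = Φ ((Φ ^ k) x) := by rw [pow_succ']; rfl
        have h6 : (G.frobM ^ (k + 1)) (G.resM x) = G.frobM ((G.frobM ^ k) (G.resM x)) := by
          rw [pow_succ']; rfl
        rw [h5, h6, hresΦ, ih]
  have hΦdeg : ∀ x ∈ R.grM i j, Φ x ∈ R.grM i j := fun x hx =>
    hR.degree i j _ (hR.rel.frobenius.FM_mem hx)
  have hpdeg : ∀ (p : ℚ[X]) (x : R.M), x ∈ R.grM i j → aeval Φ p x ∈ R.grM i j := by
    intro p
    induction p using Polynomial.induction_on' with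
    | add p r hp hr => intro x hx; rw [map_add]; exact Submodule.add_mem _ (hp x hx) (hr x hx)
    | monomial k a =>
      intro x hx
      rw [aeval_monomial, Module.End.mul_apply, Module.algebraMap_end_apply]
      refine Submodule.smul_mem _ _ ?_
      induction k with
      | zero => simpa using hx
      | succ k ih => rw [pow_succ', Module.End.mul_apply]; exact hΦdeg _ ih
  obtain ⟨χ, hχ, hkill⟩ := hGen.algebraic i j
  obtain ⟨u, v, N, huv, hN⟩ := exists_split Φ μ hχ (hkill m hm)
  -- the restriction of the generalized part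
  have h1 : G.resM (aeval Φ u m) = G.resM m := by
    have h2 : aeval G.frobM (u + v * (X - C μ)) (G.resM m) = G.resM m := by
      rw [huv, map_one]; rfl
    rw [map_add, LinearMap.add_apply, map_mul, Module.End.mul_apply, map_sub, aeval_X, aeval_C,
      LinearMap.sub_apply, Module.algebraMap_end_apply, hinv, sub_self, map_zero, add_zero] at h2
    rw [hres, h2]
  have hgen : GenM (q ^ s) R i j (aeval Φ u m) := ⟨hpdeg u m hm, N, hN⟩
  have hexp := (hmain R hR.rel hR.degree hR.eigenvalues i j _ hgen).1
  set m' := aeval Φ u m with hm'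
  set z : J → R.N := fun t => R.pair (E' t) m' with hz
  have hzgen : ∀ t, GenN (q ^ s) R (i - 2 * c t) (j - c t) (z t) := fun t =>
    gen_pair hQ hR.rel hdual hgen hexp t
  classical
  refine ⟨∑ t ∈ Finset.univ.filter (fun t => c t = 0), z t, ?_, ?_⟩
  · refine Submodule.sum_mem _ fun t ht => ?_
    have h2 : z t ∈ R.grN (i - 2 * c t) (j - c t) := (hzgen t).1
    rw [(Finset.mem_filter.1 ht).2] at h2
    simpa using h2
  have hD0 : ∀ t, c t = 0 → D t = 1 := by
    intro t ht
    obtain ⟨L, hL, -, hprod⟩ := hfam.product t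
    rw [ht] at hL
    rw [hprod, List.length_eq_zero_iff.1 hL, List.prod_nil]
  have hpull : G.pull (G.resN (∑ t ∈ Finset.univ.filter (fun t => c t = 0), z t)) = G.resM m := by
    rw [← h1, hexp, map_sum, map_sum, map_sum, ← Finset.sum_filter_add_sum_filter_not Finset.univ
      (fun t => c t = 0) (fun t => G.resM (R.times (D t) (R.pair (E' t) m')))]
    rw [Finset.sum_eq_zero (s := Finset.univ.filter (fun t => ¬ c t = 0)), add_zero]
    · refine Finset.sum_congr rfl fun t ht => ?_
      rw [hD0 t (Finset.mem_filter.1 ht).2]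
      exact (hGen.restriction.res_one (z t)).symm
    · intro t ht
      exact hGen.restriction.res_support (z t) (Nat.pos_of_ne_zero (Finset.mem_filter.1 ht).2)
        (hdual.left t)
  refine ⟨?_, hpull⟩
  rw [← sub_eq_zero]
  refine hGen.specialization.injective _ ?_
  rw [map_sub, map_smul, hGen.restriction.pull_frob, hpull, hinv, sub_self]

theorem genericReduces : GenericReduces P q F := by
  intro K _ _ A s hA R hR G hGen i j
  have hmul : ∀ n : R.N, R.DegN i j n → R.DegM i j (R.mul 1 n) := by
    intro n hn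
    have h1 := hR.rel.graded.mul_mem hA.chow.one_mem hn
    simpa using h1
  have hinvN : ∀ g : G.GN, G.frobN g = (((q ^ s : ℕ) : ℚ) ^ j) • g →
      G.frobM (G.pull g) = (((q ^ s : ℕ) : ℚ) ^ j) • G.pull g := by
    intro g hg
    rw [← hGen.restriction.pull_frob, hg, map_smul]
  have hinj : ∀ g g' : G.GN, G.pull g = G.pull g' → g = g' := by
    intro g g' h
    rw [← sub_eq_zero] at h ⊢
    exact hGen.specialization.injective _ (by rw [map_sub, h])
  have hiff : ExtendedM (q ^ s) G i j ↔ ExtendedN (q ^ s) G i j := by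
    constructor
    · intro h n hn hinv
      have h1 := h (R.mul 1 n) (hmul n hn) (by
        rw [hGen.restriction.res_one]
        exact hinvN _ hinv)
      rw [hGen.restriction.res_one] at h1
      exact (hGen.specialization.cycles (hGen.restriction.res_deg hn)).1 h1
    · intro h m hm hinv
      obtain ⟨n, hn, hninv, hpull⟩ := pull_of_extended hq hG hA hR hGen hm hinv
      rw [← hpull]
      exact (hGen.specialization.cycles (hGen.restriction.res_deg hn)).2 (h n hn hninv)
  refine ⟨?_, hiff, ?_⟩
  · intro w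
    constructor
    · rintro ⟨⟨m, hm, rfl⟩, hinv⟩
      obtain ⟨n, hn, hninv, hpull⟩ := pull_of_extended hq hG hA hR hGen hm hinv
      refine ⟨G.resN n, ⟨⟨⟨n, hn, rfl⟩, hninv⟩, hpull⟩, ?_⟩
      rintro g' ⟨-, hg'⟩
      exact hinj _ _ (hg'.trans hpull.symm)
    · rintro ⟨g, ⟨⟨⟨n, hn, rfl⟩, hninv⟩, hpull⟩, -⟩
      refine ⟨⟨R.mul 1 n, hmul n hn, ?_⟩, ?_⟩
      · rw [hGen.restriction.res_one, hpull]
      · rw [← hpull]
        exact hinvN _ hninv
  · rintro ⟨hN, hM⟩
    have h1 : QuestionM (q ^ s) G i j ↔ ExtendedM (q ^ s) G i j := by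
      constructor
      · intro h m hm hinv
        exact h _ (hGen.restriction.res_degM hm) hinv
      · intro h g hg hinv
        obtain ⟨m, hm, rfl⟩ := hM g hg hinv
        exact h m hm hinv
    have h2 : QuestionN (q ^ s) G i j ↔ ExtendedN (q ^ s) G i j := by
      constructor
      · intro h n hn hinv
        exact h _ (hGen.restriction.res_deg hn) hinv
      · intro h g hg hinv
        obtain ⟨n, hn, rfl⟩ := hN g hg hinv
        exact h n hn hinv
    rw [h1, h2, hiff]

end

end Pool.Agent.Q306.FG
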